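import Pool.Agent.N645.RN.TRPa

/-!
Project RN (helper290), TRP: transport of weights by the automorphisms which translate a complex geodesic.
Author: helper645.
-/

set_option autoImplicit false

open Complex MeasureTheory Set Filter Topology
open scoped ENNReal Pointwise

namespace Pool.Agent.N645.RN

open Pool.Agent.N290.RJ Pool.Agent.N290.RK Pool.Agent.N290.RL Pool.Agent.N290.RM Pool.Agent.N290.RN

variable {d : ℕ}

theorem near_low {x : ℝ} (hx : 0 ≤ x) (hx1 : x < 1) {ζ ξ : E d} (hh : ‖ζ.1‖ ≤ 1 / 2)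
    (h : ‖1 - (x : ℂ) * ξ.1‖ < 1 / 4) : 1 / 4 ≤ ‖ζ.1 - ξ.1‖ := by
  have h1 := norm_sub_norm_le (1 : ℂ) ((x : ℂ) * ξ.1)
  rw [norm_one, norm_mul, Complex.norm_real, Real.norm_of_nonneg hx] at h1
  have h2 := norm_sub_norm_le ξ.1 ζ.1
  rw [norm_sub_rev] at h2
  have h3 : x * ‖ξ.1‖ ≤ 1 * ‖ξ.1‖ := mul_le_mul_of_nonneg_right hx1.le (norm_nonneg _)
  linarith

theorem inner (h3 : C3 d) (h4 : C4 d) {V : E d →L[ℂ] E d} (hV : IsU V) {x : ℝ} (hx : 0 ≤ x)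
    (hx1 : x < 1) (τ : ℝ → ℝ) (α : E d → ℝ) (hα : AW α) (hτ : Tail τ α) (κ : ℝ) (hκ : 0 < κ)
    (ζ : E d) (hζ : ζ ∈ B d) :
    ∫⁻ ξ in B d, ENNReal.ofReal (((1 - x ^ 2) / ‖1 - x * ξ.1‖ ^ 2) ^ (d + 2)) *
      ENNReal.ofReal ((if 1 - N (Ph x ξ) ≤ κ then (B d).indicator (fun w => α (V w)) (Ph x ξ) ^ 2
        else 0) * N290.RJ.ker (Ph x ζ) (Ph x ξ)) ≤ ENNReal.ofReal (τ κ) := by
  have hN : Measurable (N : E d → ℝ) := N_continuous.measurable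
  have hc : ContinuousOn (fun w => α (V w)) (B d) :=
    hα.a1.continuousOn.comp V.continuous.continuousOn fun w hw => (hV.mem w).2 hw
  have hm : Measurable ((B d).indicator (fun w => α (V w))) := by
    classical
    rw [← Set.piecewise_eq_indicator]
    exact ContinuousOn.measurable_piecewise hc continuousOn_const B_meas
  obtain ⟨b, hb⟩ : ∃ b, b = (B d).indicator (fun w => α (V w)) := ⟨_, rfl⟩
  rw [← hb] at hm
  have hG : Measurable (fun w : E d => ENNReal.ofReal ((if 1 - N w ≤ κ then b w ^ 2 else 0) *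
      N290.RJ.ker (Ph x ζ) w)) := by
    refine ENNReal.measurable_ofReal.comp (Measurable.mul ?_ (ker_meas _))
    exact Measurable.ite (measurableSet_le (measurable_const.sub hN) measurable_const)
      (hm.pow_const 2) measurable_const
  rw [← hb, ← (h3 x hx hx1).2.1 _ hG]
  have hζ' : V (Ph x ζ) ∈ B d := (hV.mem _).2 ((h3 x hx hx1).1 ζ hζ)
  refine le_trans (le_of_eq ?_) (hτ κ hκ _ hζ')
  rw [(h4 V hV).2.2 (fun v => ENNReal.ofReal ((if 1 - N v ≤ κ then α v ^ 2 else 0) *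
    N290.RJ.ker (V (Ph x ζ)) v))]
  refine setLIntegral_congr_fun B_meas fun w hw => ?_
  have e1 : b w = α (V w) := by
    rw [hb, Set.indicator_of_mem hw]
  beta_reduce
  rw [e1, hV, hV.ker]

theorem pw (h6 : C6 d) {V : E d →L[ℂ] E d} (hV : IsU V) {x : ℝ} (hx : 0 ≤ x) (hx1 : x < 1)
    (hPh : ∀ ξ ∈ B d, Ph x ξ ∈ B d) (α : E d → ℝ) (hα : AW α) (κ : ℝ) (hκ : 0 < κ)
    (ζ : E d) (hζ : ζ ∈ B d) (hh : ‖ζ.1‖ ≤ 1 / 2) (ξ : E d) (hξ : ξ ∈ B d) :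
    ENNReal.ofReal ((if 1 - N ξ ≤ κ then α (V (Ph x ξ)) ^ 2 else 0) * N290.RJ.ker ζ ξ) ≤
    ENNReal.ofReal (4 ^ (d + 2)) *
      (ENNReal.ofReal (((1 - x ^ 2) / ‖1 - x * ξ.1‖ ^ 2) ^ (d + 2)) *
      ENNReal.ofReal ((if 1 - N (Ph x ξ) ≤ 16 * κ then
        (B d).indicator (fun w => α (V w)) (Ph x ξ) ^ 2 else 0) *
        N290.RJ.ker (Ph x ζ) (Ph x ξ))) +
    {w : E d | w ∈ B d ∧ 1 - N w ≤ κ}.indicator
      (fun _ => ENNReal.ofReal (2 ^ d * 48 ^ (2 * d + 2))) ξ := by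
  by_cases hc : 1 - N ξ ≤ κ
  swap
  · rw [if_neg hc, zero_mul, ENNReal.ofReal_zero]
    exact zero_le
  rw [if_pos hc]
  have hm : V (Ph x ξ) ∈ B d := (hV.mem _).2 (hPh ξ hξ)
  obtain ⟨ha1, ha2⟩ := hα.a2 _ hm
  by_cases hd : 1 / 4 ≤ ‖1 - (x : ℂ) * ξ.1‖
  · have hN : 1 - N (Ph x ξ) ≤ 16 * κ := by
      rw [(h6 x hx hx1 ξ hξ).2.2.1]
      have hD : (1 / 16 : ℝ) ≤ ‖1 - (x : ℂ) * ξ.1‖ ^ 2 := by
        have := pow_le_pow_left₀ (by norm_num : (0 : ℝ) ≤ 1 / 4) hd 2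
        linarith [show (1 / 4 : ℝ) ^ 2 = 1 / 16 by norm_num]
      have hξ1 : 0 < 1 - N ξ := by
        have : N ξ < 1 := hξ
        linarith
      rw [div_le_iff₀ (by linarith)]
      have h1 : (1 - x ^ 2) * (1 - N ξ) ≤ 1 * κ :=
        mul_le_mul (by nlinarith) hc hξ1.le (by norm_num)
      have h2 : 16 * κ * (1 / 16) ≤ 16 * κ * ‖1 - (x : ℂ) * ξ.1‖ ^ 2 :=
        mul_le_mul_of_nonneg_left hD (by linarith)
      linarith
    rw [if_pos hN, Set.indicator_of_mem (hPh ξ hξ)]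
    refine le_trans ?_ le_self_add
    have hJ : 0 ≤ ((1 - x ^ 2) / ‖1 - (x : ℂ) * ξ.1‖ ^ 2) ^ (d + 2) :=
      pow_nonneg (div_nonneg (by nlinarith) (sq_nonneg _)) _
    have h40 : (0 : ℝ) ≤ 4 ^ (d + 2) := by positivity
    rw [← ENNReal.ofReal_mul hJ, ← ENNReal.ofReal_mul h40]
    refine ENNReal.ofReal_le_ofReal ?_
    have h1 := mul_le_mul_of_nonneg_left (ker_le h6 hx hx1 hζ hξ hh) (sq_nonneg (α (V (Ph x ξ))))
    refine h1.trans (le_of_eq ?_)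
    ring
  · rw [not_le] at hd
    have h1 := ker_far hζ hξ (near_low hx hx1 hh hd)
    have hmem : ξ ∈ {w : E d | w ∈ B d ∧ 1 - N w ≤ κ} := ⟨hξ, hc⟩
    rw [Set.indicator_of_mem hmem]
    refine le_trans ?_ le_add_self
    refine ENNReal.ofReal_le_ofReal ?_
    have h2 : α (V (Ph x ξ)) ^ 2 ≤ 1 := by nlinarith
    have h3 := mul_le_mul h2 h1 (ker_nonneg _ _) zero_le_one
    rwa [one_mul] at h3

theorem est (h3 : C3 d) (h4 : C4 d) (h6 : C6 d) {Cs : ℝ} (hCs0 : 0 < Cs)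
    (hCs : ∀ κ : ℝ, 0 < κ →
      volume {w : E d | w ∈ B d ∧ 1 - N w ≤ κ} ≤ ENNReal.ofReal (Cs * κ))
    {V : E d →L[ℂ] E d} (hV : IsU V) {x : ℝ} (hx : 0 ≤ x) (hx1 : x < 1) (τ : ℝ → ℝ)
    (α : E d → ℝ) (hα : AW α) (hτ : Tail τ α) (κ : ℝ) (hκ : 0 < κ) (ζ : E d) (hζ : ζ ∈ B d)
    (hh : ‖ζ.1‖ ≤ 1 / 2) :
    ∫⁻ ξ in B d, ENNReal.ofReal ((if 1 - N ξ ≤ κ then α (V (Ph x ξ)) ^ 2 else 0) *
      N290.RJ.ker ζ ξ) ≤
    ENNReal.ofReal ((4 ^ (d + 2) + 2 ^ d * 48 ^ (2 * d + 2) * Cs) * (|τ (16 * κ)| + κ)) := by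
  have hPh := (h3 x hx hx1).1
  have hN : Measurable (N : E d → ℝ) := N_continuous.measurable
  have hS : MeasurableSet {w : E d | w ∈ B d ∧ 1 - N w ≤ κ} :=
    B_meas.inter (measurableSet_le (measurable_const.sub hN) measurable_const)
  refine (setLIntegral_mono' B_meas fun ξ hξ => pw h6 hV hx hx1 hPh α hα κ hκ ζ hζ hh ξ hξ).trans ?_
  rw [lintegral_add_right _ (measurable_const.indicator hS),
    lintegral_const_mul' _ _ ENNReal.ofReal_ne_top]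
  have h1 := inner h3 h4 hV hx hx1 τ α hα hτ (16 * κ) (by linarith) ζ hζ
  have h2 : ∫⁻ ξ in B d, {w : E d | w ∈ B d ∧ 1 - N w ≤ κ}.indicator
      (fun _ => ENNReal.ofReal (2 ^ d * 48 ^ (2 * d + 2))) ξ ≤
      ENNReal.ofReal (2 ^ d * 48 ^ (2 * d + 2)) * ENNReal.ofReal (Cs * κ) := by
    refine (setLIntegral_le_lintegral _ _).trans ?_
    rw [lintegral_indicator_const hS]
    exact mul_le_mul_right (hCs κ hκ) _
  have h5 : ENNReal.ofReal (4 ^ (d + 2)) * ENNReal.ofReal (τ (16 * κ)) ≤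
      ENNReal.ofReal (4 ^ (d + 2) * |τ (16 * κ)|) := by
    rw [← ENNReal.ofReal_mul (by positivity)]
    exact ENNReal.ofReal_le_ofReal (mul_le_mul_of_nonneg_left (le_abs_self _) (by positivity))
  refine (add_le_add ((mul_le_mul_right h1 _).trans h5) h2).trans ?_
  rw [← ENNReal.ofReal_mul (by positivity), ← ENNReal.ofReal_add (by positivity) (by positivity)]
  refine ENNReal.ofReal_le_ofReal ?_
  have e1 : 0 ≤ |τ (16 * κ)| := abs_nonneg _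
  have e2 : (0 : ℝ) ≤ 4 ^ (d + 2) * κ := by positivity
  have e3 : (0 : ℝ) ≤ 2 ^ d * 48 ^ (2 * d + 2) * Cs * |τ (16 * κ)| := by positivity
  have e4 : (4 ^ (d + 2) + 2 ^ d * 48 ^ (2 * d + 2) * Cs) * (|τ (16 * κ)| + κ) =
      4 ^ (d + 2) * |τ (16 * κ)| + 2 ^ d * 48 ^ (2 * d + 2) * (Cs * κ) + 4 ^ (d + 2) * κ +
      2 ^ d * 48 ^ (2 * d + 2) * Cs * |τ (16 * κ)| := by ring
  rw [e4]
  linarith

/-- **Transport of weights.** -/
theorem TRP_of (d : ℕ) (h3 : C3 d) (h4 : C4 d) (h4b : C4b d) (h6 : C6 d) (hM : MVF d) :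
    TRP d := by
  obtain ⟨Cs, hCs0, hCs⟩ := shell d
  refine ⟨4 ^ (d + 2) + 2 ^ d * 48 ^ (2 * d + 2) * Cs, by positivity,
    fun p a τ α hp ha hα hτ => ⟨aw_comp hM p hp a ha α hα, fun κ hκ z hz hzp => ?_⟩⟩
  obtain ⟨U, hU, hUb, hUp'⟩ := h4b p
  have hnm : N290.RJ.nm p = 1 := by
    unfold N290.RJ.nm
    rw [hp, Real.sqrt_one]
  have hUp : U ((1 : ℂ), 0) = p := by
    rw [hnm, Complex.ofReal_one] at hUp'
    exact hUp'
  obtain ⟨ω, hω, haω⟩ : ∃ ω : ℂ, ‖ω‖ = 1 ∧ a = ((‖a‖ : ℝ) : ℂ) * ω := by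
    by_cases h0 : a = 0
    · exact ⟨1, norm_one, by rw [h0, norm_zero, Complex.ofReal_zero, zero_mul]⟩
    · have h1 : ((‖a‖ : ℝ) : ℂ) ≠ 0 := Complex.ofReal_ne_zero.2 (norm_ne_zero_iff.2 h0)
      refine ⟨a / ((‖a‖ : ℝ) : ℂ), ?_, by rw [mul_div_cancel₀ _ h1]⟩
      rw [norm_div, Complex.norm_real, norm_norm, div_self (norm_ne_zero_iff.2 h0)]
  have hww : ω * starRingEnd ℂ ω = 1 := by
    rw [Complex.mul_conj, Complex.normSq_eq_norm_sq, hω]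
    simp
  have hx0 : 0 ≤ ‖a‖ := norm_nonneg a
  obtain ⟨x, hx⟩ : ∃ x : ℝ, x = ‖a‖ := ⟨_, rfl⟩
  rw [← hx] at haω ha hx0
  have hV : IsU (ω • U) := by
    intro ξ
    rw [ContinuousLinearMap.smul_apply, N_smulc, hω, hU]
    ring
  have hW : IsU ((-ω) • U) := by
    intro ξ
    rw [ContinuousLinearMap.smul_apply, N_smulc, norm_neg, hω, hU]
    ring
  obtain ⟨ζ, hζU⟩ := hUb.2 ((-starRingEnd ℂ ω) • z)
  have hζz : ((-ω) • U) ζ = z := by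
    rw [ContinuousLinearMap.smul_apply, hζU, smul_smul, neg_mul_neg, hww, one_smul]
  have hζ : ζ ∈ B d := by
    rw [← hW.mem, hζz]
    exact hz
  have hζp : ‖ζ.1‖ ≤ 1 / 2 := by
    have h1 : ip z p = -ω * ζ.1 := by
      rw [← hζz, ContinuousLinearMap.smul_apply, ip_smul_left, ← hUp, hU.ip]
      unfold ip
      simp
    rw [h1, norm_mul, norm_neg, hω, one_mul] at hzp
    exact hzp
  refine le_trans (le_of_eq ?_)
    (est h3 h4 h6 hCs0 hCs hV hx0 ha τ α hα hτ κ hκ ζ hζ hζp)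
  rw [(h4 _ hW).2.2]
  refine setLIntegral_congr_fun B_meas fun ξ hξ => ?_
  have e1 : mvE p a (((-ω) • U) ξ) = (ω • U) (Ph x ξ) := by
    rw [haω]
    exact key hU hUp hx0 ω hω ξ
  have e2 : N290.RJ.ker z (((-ω) • U) ξ) = N290.RJ.ker ζ ξ := by
    rw [← hζz, hW.ker]
  beta_reduce
  rw [e1, e2, hW]

end Pool.Agent.N645.RN
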