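import Pool.Agent.N290.RN.Stm
import Pool.Agent.N290.RJ.Un

/-!
Project RN (helper290), TRP, part a: lemmas for the transport of weights by the automorphisms which translate a complex geodesic.
Author: helper645.
-/

set_option autoImplicit false

open Complex MeasureTheory Set Filter Topology
open scoped ENNReal Pointwise

namespace Pool.Agent.N645.RN

open Pool.Agent.N290.RJ Pool.Agent.N290.RK Pool.Agent.N290.RL Pool.Agent.N290.RM Pool.Agent.N290.RN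

variable {d : ℕ}

theorem ip_smul_right (t : ℂ) (z w : E d) : ip z (t • w) = starRingEnd ℂ t * ip z w := by
  rw [← ip_conj, ip_smul_left, map_mul, ip_conj]

theorem ip_le (z p : E d) (hp : N p = 1) : ‖ip z p‖ ^ 2 ≤ N z := by
  have h := N_nonneg (z + (-(ip z p)) • p)
  rw [N_add, N_smulc, hp, ip_smul_right, norm_neg, mul_one, map_neg] at h
  have h2 : (-(starRingEnd ℂ) (ip z p) * ip z p).re = -‖ip z p‖ ^ 2 := by
    rw [neg_mul, mul_comm, mulconj, Complex.neg_re, Complex.ofReal_re]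
  rw [h2] at h
  linarith

theorem den_ne (p : E d) (hp : N p = 1) (a : ℂ) (ha : ‖a‖ < 1) (z : E d) (hz : z ∈ B d) :
    1 + starRingEnd ℂ a * ip z p ≠ 0 := by
  intro h
  have h1 : ‖starRingEnd ℂ a * ip z p‖ = 1 := by
    have : starRingEnd ℂ a * ip z p = -1 := by linear_combination h
    rw [this, norm_neg, norm_one]
  rw [norm_mul, RCLike.norm_conj] at h1
  have h2 := ip_le z p hp
  have h3 : N z < 1 := hz
  have h5 := norm_nonneg (ip z p)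
  have h4 : ‖ip z p‖ < 1 := by nlinarith
  nlinarith [norm_nonneg a]

theorem mvE_cd (p : E d) (hp : N p = 1) (a : ℂ) (ha : ‖a‖ < 1) : ContDiffOn ℂ 1 (mvE p a) (B d) := by
  have hip : ContDiff ℂ 1 (fun z : E d => ip z p) := by
    unfold ip
    exact (contDiff_fst.mul contDiff_const).add
      (ContDiff.sum fun i _ => ((contDiff_apply ℂ ℂ i).comp contDiff_snd).mul contDiff_const)
  have hA : ContDiffOn ℂ 1 (fun z : E d => 1 / (1 + starRingEnd ℂ a * ip z p)) (B d) :=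
    contDiffOn_const.div ((contDiff_const.add (contDiff_const.mul hip)).contDiffOn)
      fun z hz => den_ne p hp a ha z hz
  have hB : ContDiffOn ℂ 1 (fun z : E d => (ip z p + a) • p +
      ((Real.sqrt (1 - ‖a‖ ^ 2) : ℝ) : ℂ) • (z - ip z p • p)) (B d) := by
    refine ContDiff.contDiffOn ?_
    have h1 : ContDiff ℂ 1 (fun z : E d => (ip z p + a) • p) :=
      ContDiff.smul (f := fun z : E d => ip z p + a) (g := fun _ => p) (hip.add contDiff_const) contDiff_const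
    have h2 : ContDiff ℂ 1 (fun z : E d => ip z p • p) :=
      ContDiff.smul (f := fun z : E d => ip z p) (g := fun _ => p) hip contDiff_const
    have h3 : ContDiff ℂ 1 (fun z : E d => ((Real.sqrt (1 - ‖a‖ ^ 2) : ℝ) : ℂ) • (z - ip z p • p)) :=
      ContDiff.smul (f := fun _ : E d => ((Real.sqrt (1 - ‖a‖ ^ 2) : ℝ) : ℂ))
        (g := fun z => z - ip z p • p) contDiff_const (contDiff_id.sub h2)
    exact h1.add h3
  exact hA.smul hB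

theorem aw_comp (hM : MVF d) (p : E d) (hp : N p = 1) (a : ℂ) (ha : ‖a‖ < 1) (α : E d → ℝ)
    (h : AW α) : AW (fun z => α (mvE p a z)) := by
  obtain ⟨hm1, hm2, -, hm4⟩ := hM p hp a ha
  refine ⟨h.a1.comp ((mvE_cd p hp a ha).restrict_scalars ℝ) hm1, fun z hz => h.a2 _ (hm1 hz),
    fun z hz ξ => ?_⟩
  have hd : DifferentiableAt ℂ (mvE p a) z := (hm2 z hz).differentiableAt (B_open.mem_nhds hz)
  have hα : DifferentiableAt ℝ α (mvE p a z) :=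
    ((h.a1.differentiableOn one_ne_zero) _ (hm1 hz)).differentiableAt (B_open.mem_nhds (hm1 hz))
  have h1 : HasFDerivAt (mvE p a) ((fderiv ℂ (mvE p a) z).restrictScalars ℝ) z :=
    hd.hasFDerivAt.restrictScalars ℝ
  have h2 : HasFDerivAt (fun w => α (mvE p a w)) ((fderiv ℝ α (mvE p a z)).comp
      ((fderiv ℂ (mvE p a) z).restrictScalars ℝ)) z := hα.hasFDerivAt.comp z h1
  rw [h2.fderiv]
  have h3 := h.a3 (mvE p a z) (hm1 hz) (fderiv ℂ (mvE p a) z ξ)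
  rw [hm4 z hz ξ] at h3
  exact h3

theorem vol_B (d : ℕ) : volume (B d) < ⊤ := by
  have h1 : B d ⊆ Metric.closedBall 0 1 := by
    intro z hz
    have hz' : ‖z.1‖ ^ 2 + ∑ i, ‖z.2 i‖ ^ 2 < 1 := hz
    have hs : 0 ≤ ∑ i, ‖z.2 i‖ ^ 2 := Finset.sum_nonneg fun i _ => sq_nonneg _
    rw [mem_closedBall_zero_iff, Prod.norm_def]
    refine max_le ?_ ?_
    · have h2 : ‖z.1‖ ^ 2 ≤ 1 := by linarith
      nlinarith [norm_nonneg z.1]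
    · rw [pi_norm_le_iff_of_nonneg zero_le_one]
      intro i
      have h2 : ‖z.2 i‖ ^ 2 ≤ ∑ i, ‖z.2 i‖ ^ 2 :=
        Finset.single_le_sum (f := fun i => ‖z.2 i‖ ^ 2) (fun i _ => sq_nonneg _)
          (Finset.mem_univ i)
      have h3 : ‖z.2 i‖ ^ 2 ≤ 1 := by linarith [sq_nonneg ‖z.1‖]
      nlinarith [norm_nonneg (z.2 i)]
  exact (measure_mono h1).trans_lt Metric.isBounded_closedBall.measure_lt_top

theorem vol_smul (d : ℕ) {ρ : ℝ} (h : 0 < ρ) :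
    volume {w : E d | N w < ρ} = ENNReal.ofReal (ρ ^ (d + 1)) * volume (B d) := by
  have h1 : {w : E d | N w < ρ} = Real.sqrt ρ • B d := by
    have hs : 0 < Real.sqrt ρ := Real.sqrt_pos.2 h
    ext b
    rw [mem_smul_set_iff_inv_smul_mem₀ hs.ne', mem_B, N_smul, inv_pow, Real.sq_sqrt h.le,
      inv_mul_lt_iff₀ h, mul_one]
    rfl
  have inst : Measure.IsAddHaarMeasure (volume : Measure (E d)) :=
    Measure.prod.instIsAddHaarMeasure (volume : Measure ℂ) (volume : Measure (Fin d → ℂ))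
  rw [h1, Measure.addHaar_smul]
  congr 2
  have h2 : Module.finrank ℝ (E d) = 2 * (d + 1) := by
    rw [Module.finrank_prod, Module.finrank_pi_fintype]
    simp [Complex.finrank_real_complex]
    ring
  rw [h2, pow_mul, Real.sq_sqrt h.le, abs_of_nonneg (by positivity)]

theorem shell (d : ℕ) : ∃ C : ℝ, 0 < C ∧ ∀ κ : ℝ, 0 < κ →
    volume {w : E d | w ∈ B d ∧ 1 - N w ≤ κ} ≤ ENNReal.ofReal (C * κ) := by
  have hV := vol_B d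
  obtain ⟨V, hV0, hVe⟩ : ∃ V : ℝ, 0 ≤ V ∧ volume (B d) = ENNReal.ofReal V :=
    ⟨(volume (B d)).toReal, ENNReal.toReal_nonneg, (ENNReal.ofReal_toReal hV.ne).symm⟩
  refine ⟨(V + 1) * (d + 1), by positivity, fun κ hκ => ?_⟩
  have hd : (0 : ℝ) ≤ d := Nat.cast_nonneg d
  by_cases hκ1 : 1 ≤ κ
  · refine (measure_mono (fun w hw => hw.1 : _ ⊆ B d)).trans ?_
    rw [hVe]
    apply ENNReal.ofReal_le_ofReal
    nlinarith [mul_nonneg hV0 hd]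
  · push Not at hκ1
    have hsub : {w : E d | N w < 1 - κ} ⊆ B d := fun w hw =>
      mem_B.2 (lt_of_lt_of_le hw (by linarith))
    have h1 : {w : E d | w ∈ B d ∧ 1 - N w ≤ κ} = B d \ {w : E d | N w < 1 - κ} := by
      ext w
      constructor
      · rintro ⟨h2, h3⟩
        refine ⟨h2, fun h4 => ?_⟩
        have h5 : N w < 1 - κ := h4
        linarith
      · rintro ⟨h2, h3⟩
        refine ⟨h2, ?_⟩
        by_contra h4
        push Not at h4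
        exact h3 (show N w < 1 - κ by linarith)
    have hm : MeasurableSet {w : E d | N w < 1 - κ} :=
      (isOpen_lt N_continuous continuous_const).measurableSet
    rw [h1, measure_sdiff hsub hm.nullMeasurableSet (measure_mono hsub |>.trans_lt hV).ne,
      vol_smul d (show 0 < 1 - κ by linarith), hVe, ← ENNReal.ofReal_mul (by
        have : 0 ≤ 1 - κ := by linarith
        positivity), ← ENNReal.ofReal_sub _ (by
        have : 0 ≤ 1 - κ := by linarith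
        positivity)]
    apply ENNReal.ofReal_le_ofReal
    have h2 : 1 + ((d + 1 : ℕ) : ℝ) * (-κ) ≤ (1 + -κ) ^ (d + 1) :=
      one_add_mul_le_pow (by linarith) (d + 1)
    push_cast at h2
    have h3 : (1 + -κ) ^ (d + 1) = (1 - κ) ^ (d + 1) := by rw [← sub_eq_add_neg]
    rw [h3] at h2
    have h4 := mul_le_mul_of_nonneg_right h2 hV0
    nlinarith [mul_nonneg hd hκ.le]

theorem ker_meas (z : E d) : Measurable (fun w : E d => N290.RJ.ker z w) := by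
  have hip : Measurable (fun w : E d => ip z w) :=
    (ip_continuous.comp (Continuous.prodMk continuous_const continuous_id)).measurable
  have hN : Measurable (N : E d → ℝ) := N_continuous.measurable
  unfold N290.RJ.ker Dl
  exact ((measurable_const.sub hip).norm.pow_const d).div ((measurable_const.sub hip).norm.mul
    ((((measurable_const.sub hip).norm.pow_const 2).sub
      (measurable_const.mul (measurable_const.sub hN))).sqrt.pow_const _))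

/-- the value of the hermitian product of two images -/
theorem ip_Ph {x : ℝ} (hx : 0 ≤ x) (hx1 : x < 1) (ζ ξ : E d) (h1 : 1 - (x : ℂ) * ζ.1 ≠ 0)
    (h2 : 1 - (x : ℂ) * starRingEnd ℂ ξ.1 ≠ 0) :
    1 - ip (Ph x ζ) (Ph x ξ) = (1 - (x : ℂ) ^ 2) * (1 - ip ζ ξ) /
      ((1 - (x : ℂ) * ζ.1) * (1 - (x : ℂ) * starRingEnd ℂ ξ.1)) := by
  have hs : ((Real.sqrt (1 - x ^ 2) : ℝ) : ℂ) * ((Real.sqrt (1 - x ^ 2) : ℝ) : ℂ) = 1 - (x : ℂ) ^ 2 := by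
    rw [← Complex.ofReal_mul, Real.mul_self_sqrt (by nlinarith)]
    push_cast
    ring
  unfold ip Ph
  simp only [Pi.smul_apply, smul_eq_mul, map_div₀, map_sub, map_mul, map_neg, map_one, Complex.conj_ofReal]
  have h3 : ∑ i, -((Real.sqrt (1 - x ^ 2) : ℝ) : ℂ) / (1 - (x : ℂ) * ζ.1) * ζ.2 i *
      (-((Real.sqrt (1 - x ^ 2) : ℝ) : ℂ) / (1 - (x : ℂ) * starRingEnd ℂ ξ.1) * starRingEnd ℂ (ξ.2 i)) =
      (1 - (x : ℂ) ^ 2) / ((1 - (x : ℂ) * ζ.1) * (1 - (x : ℂ) * starRingEnd ℂ ξ.1)) *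
        ∑ i, ζ.2 i * starRingEnd ℂ (ξ.2 i) := by
    rw [Finset.mul_sum]
    refine Finset.sum_congr rfl fun i _ => ?_
    rw [← hs]
    field_simp
  rw [h3]
  field_simp
  ring

theorem norm_fst_le (ξ : E d) : ‖ξ.1‖ ^ 2 ≤ N ξ := by
  unfold N
  have : 0 ≤ ∑ i, ‖ξ.2 i‖ ^ 2 := Finset.sum_nonneg fun i _ => sq_nonneg _
  linarith

theorem norm_fst_lt {ξ : E d} (h : ξ ∈ B d) : ‖ξ.1‖ < 1 := by
  have h1 := norm_fst_le ξ
  have h2 : N ξ < 1 := h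
  nlinarith [norm_nonneg ξ.1]

theorem D_pos {x : ℝ} (hx : 0 ≤ x) (hx1 : x < 1) {ξ : E d} (h : ξ ∈ B d) :
    0 < ‖1 - (x : ℂ) * ξ.1‖ ∧ ‖1 - (x : ℂ) * ξ.1‖ ≤ 2 := by
  have h1 := norm_fst_lt h
  have h2 : ‖(x : ℂ) * ξ.1‖ = x * ‖ξ.1‖ := by
    rw [norm_mul, Complex.norm_real, Real.norm_of_nonneg hx]
  have h3 := norm_sub_norm_le (1 : ℂ) ((x : ℂ) * ξ.1)
  have h4 := norm_sub_le (1 : ℂ) ((x : ℂ) * ξ.1)
  rw [norm_one, h2] at h3 h4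
  have h5 := norm_nonneg ξ.1
  constructor
  · nlinarith
  · nlinarith

theorem Dc_eq {x : ℝ} (w : ℂ) : ‖1 - (x : ℂ) * starRingEnd ℂ w‖ = ‖1 - (x : ℂ) * w‖ := by
  rw [← RCLike.norm_conj (1 - (x : ℂ) * w), map_sub, map_one, map_mul, Complex.conj_ofReal]

/-- the transformation of the kernel -/
theorem ker_Ph (h6 : C6 d) {x : ℝ} (hx : 0 ≤ x) (hx1 : x < 1) {ζ ξ : E d} (hζ : ζ ∈ B d)
    (hξ : ξ ∈ B d) :
    N290.RJ.ker ζ ξ = ((1 - x ^ 2) / (‖1 - (x : ℂ) * ζ.1‖ * ‖1 - (x : ℂ) * ξ.1‖)) ^ (d + 2) *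
      N290.RJ.ker (Ph x ζ) (Ph x ξ) := by
  obtain ⟨p1, -⟩ := D_pos hx hx1 hζ
  obtain ⟨p2, -⟩ := D_pos hx hx1 hξ
  have n1 : 1 - (x : ℂ) * ζ.1 ≠ 0 := norm_pos_iff.1 p1
  have n2 : 1 - (x : ℂ) * starRingEnd ℂ ξ.1 ≠ 0 := by
    rw [← norm_pos_iff, Dc_eq]
    exact p2
  have hx2 : 0 < 1 - x ^ 2 := by nlinarith
  obtain ⟨l, hl⟩ : ∃ l : ℝ, l = (1 - x ^ 2) / (‖1 - (x : ℂ) * ζ.1‖ * ‖1 - (x : ℂ) * ξ.1‖) := ⟨_, rfl⟩
  have hl0 : 0 < l := by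
    rw [hl]
    positivity
  have e1 : ‖1 - ip (Ph x ζ) (Ph x ξ)‖ = l * ‖1 - ip ζ ξ‖ := by
    rw [ip_Ph hx hx1 ζ ξ n1 n2, norm_div, norm_mul, norm_mul, Dc_eq, hl]
    have : ‖1 - (x : ℂ) ^ 2‖ = 1 - x ^ 2 := by
      have h : (1 - (x : ℂ) ^ 2) = ((1 - x ^ 2 : ℝ) : ℂ) := by push_cast; ring
      rw [h, Complex.norm_real, Real.norm_of_nonneg hx2.le]
    rw [this]
    ring
  obtain ⟨-, -, f1, -⟩ := h6 x hx hx1 ζ hζ
  obtain ⟨-, -, f2, -⟩ := h6 x hx hx1 ξ hξ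
  have e2 : Dl (Ph x ζ) (Ph x ξ) = l ^ 2 * Dl ζ ξ := by
    unfold Dl
    rw [e1, f1, f2, hl]
    field_simp
  have e3 : Real.sqrt (Dl (Ph x ζ) (Ph x ξ)) = l * Real.sqrt (Dl ζ ξ) := by
    rw [e2, Real.sqrt_mul (sq_nonneg l), Real.sqrt_sq hl0.le]
  have e4 : N290.RJ.ker (Ph x ζ) (Ph x ξ) = l ^ d / l ^ (2 * d + 2) * N290.RJ.ker ζ ξ := by
    unfold N290.RJ.ker
    rw [e1, e3, mul_pow, mul_pow]
    have : l * ‖1 - ip ζ ξ‖ * (l ^ (2 * d + 1) * Real.sqrt (Dl ζ ξ) ^ (2 * d + 1)) =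
        l ^ (2 * d + 2) * (‖1 - ip ζ ξ‖ * Real.sqrt (Dl ζ ξ) ^ (2 * d + 1)) := by ring
    rw [this, mul_div_mul_comm]
  rw [e4, ← hl, ← mul_assoc]
  have e5 : l ^ (d + 2) * (l ^ d / l ^ (2 * d + 2)) = 1 := by
    have : l ^ (2 * d + 2) = l ^ (d + 2) * l ^ d := by
      rw [← pow_add]
      congr 1
      ring
    rw [this]
    field_simp
  rw [e5, one_mul]

theorem ker_le (h6 : C6 d) {x : ℝ} (hx : 0 ≤ x) (hx1 : x < 1) {ζ ξ : E d} (hζ : ζ ∈ B d)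
    (hξ : ξ ∈ B d) (hh : ‖ζ.1‖ ≤ 1 / 2) :
    N290.RJ.ker ζ ξ ≤ 4 ^ (d + 2) * (((1 - x ^ 2) / ‖1 - (x : ℂ) * ξ.1‖ ^ 2) ^ (d + 2) *
      N290.RJ.ker (Ph x ζ) (Ph x ξ)) := by
  rw [ker_Ph h6 hx hx1 hζ hξ, ← mul_assoc]
  refine mul_le_mul_of_nonneg_right ?_ (ker_nonneg _ _)
  obtain ⟨p1, -⟩ := D_pos hx hx1 hζ
  obtain ⟨p2, q2⟩ := D_pos hx hx1 hξ
  have hx2 : 0 < 1 - x ^ 2 := by nlinarith
  have h1 : 1 / 2 ≤ ‖1 - (x : ℂ) * ζ.1‖ := by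
    have h2 : ‖(x : ℂ) * ζ.1‖ = x * ‖ζ.1‖ := by
      rw [norm_mul, Complex.norm_real, Real.norm_of_nonneg hx]
    have h3 := norm_sub_norm_le (1 : ℂ) ((x : ℂ) * ζ.1)
    rw [norm_one, h2] at h3
    nlinarith [norm_nonneg ζ.1]
  rw [← mul_pow]
  refine pow_le_pow_left₀ (by positivity) ?_ _
  rw [div_le_iff₀ (by positivity), ← mul_div_assoc, div_mul_eq_mul_div, le_div_iff₀ (by positivity)]
  have h4 : ‖1 - (x : ℂ) * ξ.1‖ ^ 2 ≤ 4 * (‖1 - (x : ℂ) * ζ.1‖ * ‖1 - (x : ℂ) * ξ.1‖) := by nlinarith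
  calc (1 - x ^ 2) * ‖1 - (x : ℂ) * ξ.1‖ ^ 2
      ≤ (1 - x ^ 2) * (4 * (‖1 - (x : ℂ) * ζ.1‖ * ‖1 - (x : ℂ) * ξ.1‖)) :=
        mul_le_mul_of_nonneg_left h4 hx2.le
    _ = _ := by ring

theorem norm_id (z w : ℂ) :
    ‖1 - z * starRingEnd ℂ w‖ ^ 2 - (1 - ‖z‖ ^ 2) * (1 - ‖w‖ ^ 2) = ‖z - w‖ ^ 2 := by
  simp only [Complex.sq_norm, Complex.normSq_apply, Complex.sub_re, Complex.sub_im, Complex.one_re,
    Complex.one_im, Complex.mul_re, Complex.mul_im, Complex.conj_re, Complex.conj_im]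
  ring

theorem real_low (A a b r q : ℝ) (hA0 : 0 ≤ A) (hA2 : A ≤ 2) (ha0 : 0 ≤ a) (hb0 : 0 ≤ b)
    (ha1 : a ≤ 1) (hb1 : b ≤ 1) (hr : 0 ≤ r) (hq : 0 ≤ q) (hra : r ≤ a) (hqb : q ≤ b)
    (h : 1 / 16 ≤ A ^ 2 - a ^ 2 * b ^ 2) :
    1 / 2304 ≤ (A - r * q) ^ 2 - (a ^ 2 - r ^ 2) * (b ^ 2 - q ^ 2) := by
  have hm0 : 0 ≤ a * b := mul_nonneg ha0 hb0
  have hm1 : a * b ≤ 1 := by nlinarith
  have hrq : r * q ≤ a * b := mul_le_mul hra hqb hq ha0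
  have h1 : 1 / 48 ≤ A - a * b := by
    by_contra hcon
    push Not at hcon
    nlinarith
  have h2 : 0 ≤ (a * q - b * r) ^ 2 := sq_nonneg _
  have h3 : (A - r * q) ^ 2 - (a ^ 2 - r ^ 2) * (b ^ 2 - q ^ 2) =
      (A - a * b) * (A - a * b + 2 * (a * b - r * q)) + (a * q - b * r) ^ 2 := by ring
  rw [h3]
  nlinarith [mul_nonneg (show 0 ≤ A - a * b by linarith) (show 0 ≤ a * b - r * q by linarith)]

theorem far_low {ζ ξ : E d} (hζ : ζ ∈ B d) (hξ : ξ ∈ B d) (h : 1 / 4 ≤ ‖ζ.1 - ξ.1‖) :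
    1 / 2304 ≤ Dl ζ ξ ∧ ‖1 - ip ζ ξ‖ ≤ 2 := by
  obtain ⟨r, hr⟩ : ∃ r : ℝ, r = Real.sqrt (∑ i, ‖ζ.2 i‖ ^ 2) := ⟨_, rfl⟩
  obtain ⟨q, hq⟩ : ∃ q : ℝ, q = Real.sqrt (∑ i, ‖ξ.2 i‖ ^ 2) := ⟨_, rfl⟩
  have hr0 : 0 ≤ r := by
    rw [hr]
    exact Real.sqrt_nonneg _
  have hq0 : 0 ≤ q := by
    rw [hq]
    exact Real.sqrt_nonneg _
  have hr2 : r ^ 2 = ∑ i, ‖ζ.2 i‖ ^ 2 := by
    rw [hr]
    exact Real.sq_sqrt (Finset.sum_nonneg fun i _ => sq_nonneg _)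
  have hq2 : q ^ 2 = ∑ i, ‖ξ.2 i‖ ^ 2 := by
    rw [hq]
    exact Real.sq_sqrt (Finset.sum_nonneg fun i _ => sq_nonneg _)
  have hNζ : N ζ = ‖ζ.1‖ ^ 2 + r ^ 2 := by
    rw [hr2]
    rfl
  have hNξ : N ξ = ‖ξ.1‖ ^ 2 + q ^ 2 := by
    rw [hq2]
    rfl
  have hζ1 : N ζ < 1 := hζ
  have hξ1 : N ξ < 1 := hξ
  rw [hNζ] at hζ1
  rw [hNξ] at hξ1
  obtain ⟨t, ht⟩ : ∃ t : ℂ, t = ∑ i, ζ.2 i * starRingEnd ℂ (ξ.2 i) := ⟨_, rfl⟩
  have htl : ‖t‖ ≤ r * q := by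
    rw [ht, hr, hq]
    refine (norm_sum_le _ _).trans ?_
    have h1 : ∀ i, ‖ζ.2 i * starRingEnd ℂ (ξ.2 i)‖ = ‖ζ.2 i‖ * ‖ξ.2 i‖ := by
      intro i
      rw [norm_mul, RCLike.norm_conj]
    simp only [h1]
    exact Real.sum_mul_le_sqrt_mul_sqrt _ _ _
  have hip : ip ζ ξ = ζ.1 * starRingEnd ℂ ξ.1 + t := by
    rw [ht]
    rfl
  obtain ⟨A, hA⟩ : ∃ A : ℝ, A = ‖1 - ζ.1 * starRingEnd ℂ ξ.1‖ := ⟨_, rfl⟩
  have hid := norm_id ζ.1 ξ.1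
  rw [← hA] at hid
  have hA0 : 0 ≤ A := by
    rw [hA]
    exact norm_nonneg _
  have hz1 := norm_nonneg ζ.1
  have hw1 := norm_nonneg ξ.1
  have hmul : ‖ζ.1 * starRingEnd ℂ ξ.1‖ = ‖ζ.1‖ * ‖ξ.1‖ := by rw [norm_mul, RCLike.norm_conj]
  have hA2 : A ≤ 2 := by
    have h1 := norm_sub_le (1 : ℂ) (ζ.1 * starRingEnd ℂ ξ.1)
    rw [norm_one, hmul, ← hA] at h1
    nlinarith [sq_nonneg (‖ζ.1‖ - ‖ξ.1‖)]
  obtain ⟨a, ha⟩ : ∃ a : ℝ, a = Real.sqrt (1 - ‖ζ.1‖ ^ 2) := ⟨_, rfl⟩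
  obtain ⟨b, hb⟩ : ∃ b : ℝ, b = Real.sqrt (1 - ‖ξ.1‖ ^ 2) := ⟨_, rfl⟩
  have ha2 : a ^ 2 = 1 - ‖ζ.1‖ ^ 2 := by
    rw [ha]
    exact Real.sq_sqrt (by nlinarith [sq_nonneg r])
  have hb2 : b ^ 2 = 1 - ‖ξ.1‖ ^ 2 := by
    rw [hb]
    exact Real.sq_sqrt (by nlinarith [sq_nonneg q])
  have ha0 : 0 ≤ a := by
    rw [ha]
    exact Real.sqrt_nonneg _
  have hb0 : 0 ≤ b := by
    rw [hb]
    exact Real.sqrt_nonneg _
  have hra : r ≤ a := by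
    apply le_of_sq_le_sq _ ha0
    rw [ha2]
    linarith
  have hqb : q ≤ b := by
    apply le_of_sq_le_sq _ hb0
    rw [hb2]
    linarith
  have ha1 : a ≤ 1 := by nlinarith [sq_nonneg ‖ζ.1‖]
  have hb1 : b ≤ 1 := by nlinarith [sq_nonneg ‖ξ.1‖]
  have hlow : 1 / 16 ≤ A ^ 2 - a ^ 2 * b ^ 2 := by
    rw [ha2, hb2, hid]
    nlinarith
  have hmain := real_low A a b r q hA0 hA2 ha0 hb0 ha1 hb1 hr0 hq0 hra hqb hlow
  have hab : (a * b) ^ 2 ≤ A ^ 2 := by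
    have : (a * b) ^ 2 = a ^ 2 * b ^ 2 := by ring
    rw [this]
    linarith
  have hmA : a * b ≤ A := le_of_sq_le_sq hab hA0
  have hrqA : r * q ≤ A := (mul_le_mul hra hqb hq0 ha0).trans hmA
  have hu : A - r * q ≤ ‖1 - ip ζ ξ‖ := by
    have h1 : 1 - ip ζ ξ = (1 - ζ.1 * starRingEnd ℂ ξ.1) - t := by
      rw [hip]
      ring
    rw [h1]
    have h2 := norm_sub_norm_le (1 - ζ.1 * starRingEnd ℂ ξ.1) t
    rw [← hA] at h2
    linarith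
  constructor
  · unfold Dl
    have h1 : (A - r * q) ^ 2 ≤ ‖1 - ip ζ ξ‖ ^ 2 := pow_le_pow_left₀ (by linarith) hu 2
    have h2 : 1 - N ζ = a ^ 2 - r ^ 2 := by
      rw [hNζ, ha2]
      ring
    have h3 : 1 - N ξ = b ^ 2 - q ^ 2 := by
      rw [hNξ, hb2]
      ring
    rw [h2, h3]
    linarith
  · have h1 := norm_sub_le (1 : ℂ) (ip ζ ξ)
    have h2 : ‖ip ζ ξ‖ ≤ ‖ζ.1‖ * ‖ξ.1‖ + r * q := by
      rw [hip]
      refine (norm_add_le _ _).trans ?_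
      rw [hmul]
      linarith
    rw [norm_one] at h1
    have e1 : ‖ζ.1‖ * ‖ξ.1‖ ≤ (‖ζ.1‖ ^ 2 + ‖ξ.1‖ ^ 2) / 2 := by
      have := sq_nonneg (‖ζ.1‖ - ‖ξ.1‖)
      linarith [sub_sq ‖ζ.1‖ ‖ξ.1‖]
    have e2 : r * q ≤ (r ^ 2 + q ^ 2) / 2 := by
      have := sq_nonneg (r - q)
      linarith [sub_sq r q]
    have e3 : N ζ < 1 := hζ
    have e4 : N ξ < 1 := hξ
    linarith

theorem ker_far {ζ ξ : E d} (hζ : ζ ∈ B d) (hξ : ξ ∈ B d) (h : 1 / 4 ≤ ‖ζ.1 - ξ.1‖) :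
    N290.RJ.ker ζ ξ ≤ 2 ^ d * 48 ^ (2 * d + 2) := by
  obtain ⟨h1, h2⟩ := far_low hζ hξ h
  have hζ1 : N ζ < 1 := hζ
  have hξ1 : N ξ < 1 := hξ
  have h148 : (1 / 48 : ℝ) ^ 2 = 1 / 2304 := by norm_num
  have h3 : 1 / 48 ≤ Real.sqrt (Dl ζ ξ) := by
    refine Real.le_sqrt_of_sq_le ?_
    linarith
  have h4 : 1 / 48 ≤ ‖1 - ip ζ ξ‖ := by
    have h5 : (1 / 48 : ℝ) ^ 2 ≤ ‖1 - ip ζ ξ‖ ^ 2 := by
      have h6 : Dl ζ ξ ≤ ‖1 - ip ζ ξ‖ ^ 2 := by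
        unfold Dl
        have := mul_pos (show 0 < 1 - N ζ by linarith) (show 0 < 1 - N ξ by linarith)
        linarith
      linarith
    exact le_of_sq_le_sq h5 (norm_nonneg _)
  unfold N290.RJ.ker
  obtain ⟨u, hu⟩ : ∃ u, u = ‖1 - ip ζ ξ‖ := ⟨_, rfl⟩
  obtain ⟨s, hs⟩ : ∃ s, s = Real.sqrt (Dl ζ ξ) := ⟨_, rfl⟩
  rw [← hu] at h2 h4
  rw [← hs] at h3
  rw [← hu, ← hs]
  have hu0 : 0 < u := by linarith
  have hs0 : 0 < s := by linarith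
  have hp0 : 0 < u * s ^ (2 * d + 1) := mul_pos hu0 (pow_pos hs0 _)
  rw [div_le_iff₀ hp0]
  have h9 : (1 / 48 : ℝ) ^ (2 * d + 1) ≤ s ^ (2 * d + 1) :=
    pow_le_pow_left₀ (by norm_num) h3 _
  have h7 : (1 / 48 : ℝ) * (1 / 48) ^ (2 * d + 1) ≤ u * s ^ (2 * d + 1) :=
    mul_le_mul h4 h9 (pow_nonneg (by norm_num) _) hu0.le
  have h8 : (48 : ℝ) ^ (2 * d + 2) * ((1 / 48 : ℝ) * (1 / 48) ^ (2 * d + 1)) = 1 := by
    rw [← pow_succ', ← mul_pow]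
    norm_num
  have h10 : u ^ d ≤ 2 ^ d := pow_le_pow_left₀ hu0.le h2 d
  have h11 : (1 : ℝ) ≤ 48 ^ (2 * d + 2) * (u * s ^ (2 * d + 1)) := by
    rw [← h8]
    exact mul_le_mul_of_nonneg_left h7 (pow_nonneg (by norm_num) _)
  have h12 : (0 : ℝ) ≤ 2 ^ d := pow_nonneg (by norm_num) _
  have h13 := mul_le_mul_of_nonneg_left h11 h12
  rw [mul_one] at h13
  rw [mul_assoc]
  exact h10.trans h13

theorem key {p : E d} {U : E d →L[ℂ] E d} (hU : IsU U) (hUp : U ((1 : ℂ), 0) = p) {x : ℝ}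
    (hx : 0 ≤ x) (ω : ℂ) (hω : ‖ω‖ = 1) (ξ : E d) :
    mvE p ((x : ℂ) * ω) ((-ω) • U ξ) = ω • U (Ph x ξ) := by
  have hww : starRingEnd ℂ ω * ω = 1 := by
    rw [mul_comm, Complex.mul_conj, Complex.normSq_eq_norm_sq, hω]
    simp
  have h1 : ip ((-ω) • U ξ) p = -ω * ξ.1 := by
    rw [ip_smul_left, ← hUp, hU.ip]
    unfold ip
    simp
  have h2 : 1 + starRingEnd ℂ ((x : ℂ) * ω) * (-ω * ξ.1) = 1 - x * ξ.1 := by
    rw [map_mul, Complex.conj_ofReal]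
    linear_combination (-(x : ℂ) * ξ.1) * hww
  have h3 : ‖(x : ℂ) * ω‖ = x := by
    rw [norm_mul, hω, Complex.norm_real, Real.norm_of_nonneg hx, mul_one]
  obtain ⟨q, hq⟩ : ∃ q, q = U ((0 : ℂ), ξ.2) := ⟨_, rfl⟩
  have h4 : U ξ = ξ.1 • p + q := by
    have h5 : ξ = ξ.1 • ((1 : ℂ), (0 : Fin d → ℂ)) + ((0 : ℂ), ξ.2) := by
      apply Prod.ext
      · simp
      · simp
    conv_lhs => rw [h5]
    rw [map_add, map_smul, hUp, hq]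
  have h5 : U (Ph x ξ) = ((x - ξ.1) / (1 - x * ξ.1)) • p +
      (-(Real.sqrt (1 - x ^ 2) : ℂ) / (1 - x * ξ.1)) • q := by
    have h6 : Ph x ξ = ((x - ξ.1) / (1 - x * ξ.1)) • ((1 : ℂ), (0 : Fin d → ℂ)) +
        (-(Real.sqrt (1 - x ^ 2) : ℂ) / (1 - x * ξ.1)) • ((0 : ℂ), ξ.2) := by
      unfold Ph
      apply Prod.ext
      · simp
      · simp
    rw [h6, map_add, map_smul, map_smul, hUp, hq]
  unfold mvE
  rw [h1, h2, h3, h4, h5]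
  obtain ⟨s, hs⟩ : ∃ s : ℂ, s = ((Real.sqrt (1 - x ^ 2) : ℝ) : ℂ) := ⟨_, rfl⟩
  obtain ⟨D, hD⟩ : ∃ D : ℂ, D = 1 - x * ξ.1 := ⟨_, rfl⟩
  rw [← hs, ← hD]
  module

end Pool.Agent.N645.RN
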